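import Pool.Agent.helper1.CD.Spec
import Pool.Agent.helper27.CH.MCH

/-! # Row cd:MCQ (MP_2e0e07_nt): the choice of `m` for the crossing, with a count -/

set_option autoImplicit false

open NumberField IsDedekindDomain Complex Pool.Agent.CH Pool.Agent.GK

namespace Pool.Agent.CD

/-- the exponent which kills the elements whose order is not divisible by `l ^ B` -/
noncomputable def MCQ_e (G : Type) [Group G] (l B : ℕ) : ℕ :=
  l ^ (B - 1) * (Nat.card G / l ^ (Nat.card G).factorization l)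

/-- the subgroup of the elements killed by `MCQ_e` -/
noncomputable def MCQ_N (G : Type) [CommGroup G] (l B : ℕ) : Subgroup G := (powMonoidHom (MCQ_e G l B)).ker

theorem MCQ_mem {G : Type} [CommGroup G] (l B : ℕ) (x : G) : x ∈ MCQ_N G l B ↔ x ^ MCQ_e G l B = 1 := by
  rw [MCQ_N, MonoidHom.mem_ker, powMonoidHom_apply]

/-- a subgroup of large index -/
theorem MCQ_ind {G : Type} [CommGroup G] [Finite G] (N : Subgroup G) (w : G) (d : ℕ)
    (h : ∀ j : ℕ, w ^ j ∈ N → d ∣ j) : d * Nat.card N ≤ Nat.card G := by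
  have h1 : d ∣ orderOf (w : G ⧸ N) := by
    apply h
    rw [← QuotientGroup.eq_one_iff, QuotientGroup.mk_pow, pow_orderOf_eq_one]
  have h2 : d ≤ N.index := (Nat.le_of_dvd (orderOf_pos _) h1).trans (by
    rw [Subgroup.index]
    exact Nat.le_of_dvd Nat.card_pos (orderOf_dvd_natCard _))
  rw [← N.index_mul_card]
  exact Nat.mul_le_mul_right _ h2

/-- the powers of `w` -/
theorem MCQ_w (B K : ℕ) (m : ℕ) (hm : m = MCH_L B ^ (4 * MCH_L B + (B + K))) (w : (ZMod m)ˣ)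
    (hw : (w : ZMod m) = ((1 + 4 * MCH_L B : ℕ) : ZMod m)) (l : ℕ) (hl : l.Prime) (hlB : l ≤ B) (j : ℕ)
    (hj : w ^ j ∈ MCQ_N (ZMod m)ˣ l B) : l ^ (K + 1) ∣ j := by
  have hL0 : 0 < MCH_L B := MCH_L_pos B
  have hm0 : 0 < m := by
    rw [hm]
    exact Nat.pow_pos hL0
  have : NeZero m := ⟨hm0.ne'⟩
  have hc0 : Nat.card (ZMod m)ˣ ≠ 0 := Nat.card_pos.ne'
  rw [MCQ_mem, MCQ_e, ← pow_mul] at hj
  set t := Nat.card (ZMod m)ˣ / l ^ (Nat.card (ZMod m)ˣ).factorization l with ht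
  set N := j * (l ^ (B - 1) * t) with hN
  have b3 : (((1 + 4 * (MCH_L B : ℤ)) ^ N - 1 : ℤ) : ZMod m) = 0 := by
    have b4 := congrArg Units.val hj
    rw [Units.val_pow_eq_pow_val, hw, Units.val_one] at b4
    push_cast at b4 ⊢
    rw [b4, sub_self]
  have b5 : (m : ℤ) ∣ (1 + 4 * (MCH_L B : ℤ)) ^ N - 1 := (ZMod.intCast_zmod_eq_zero_iff_dvd _ m).1 b3
  have b6 : (l : ℤ) ^ (4 * MCH_L B + (B + K)) ∣ (1 + 4 * (MCH_L B : ℤ)) ^ N - 1 := by
    refine dvd_trans ?_ b5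
    rw [hm]
    push_cast
    exact pow_dvd_pow_of_dvd (by exact_mod_cast MCH_dvd hl hlB) _
  have b7 := MCH_lte hl (MCH_dvd hl hlB) hL0 b6
  have b8 : 4 * MCH_L B + (B + K) - 4 * MCH_L B = (K + 1) + (B - 1) := by
    have := hl.two_le
    omega
  rw [b8, hN, ← mul_assoc] at b7
  have b9 : ¬ l ∣ t := Nat.not_dvd_ordCompl hl hc0
  have b10 : Nat.Coprime (l ^ (K + 1 + (B - 1))) t :=
    Nat.Coprime.pow_left _ ((Nat.Prime.coprime_iff_not_dvd hl).2 b9)
  have b11 := b10.dvd_of_dvd_mul_right b7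
  rw [pow_add] at b11
  exact Nat.dvd_of_mul_dvd_mul_right (Nat.pow_pos hl.pos) b11

theorem MCQ : MCQ_stmt := by
  intro B ε hε
  obtain ⟨K, hK⟩ := exists_nat_gt ((B : ℝ) * B / ε)
  have hK2 : (B : ℝ) * B ≤ ε * 2 ^ K := by
    have h1 : (K : ℝ) < 2 ^ K := by exact_mod_cast Nat.lt_two_pow_self
    have h2 := (div_lt_iff₀ hε).1 (hK.trans h1)
    linarith [mul_comm ε (2 ^ K : ℝ)]
  set L := MCH_L B with hL
  have hL0 : 0 < L := MCH_L_pos B
  set m := L ^ (4 * L + (B + K)) with hm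
  have hm0 : 0 < m := Nat.pow_pos hL0
  have : NeZero m := ⟨hm0.ne'⟩
  refine ⟨m, hm0, ?_⟩
  intro H hH hH0 u n hn0 hnB
  classical
  have hcop : Nat.Coprime (1 + 4 * L) m := by
    apply Nat.Coprime.pow_right
    rw [Nat.coprime_add_mul_right_left]
    exact Nat.coprime_one_left L
  set w : (ZMod m)ˣ := ZMod.unitOfCoprime (1 + 4 * L) hcop with hw
  have hNl : ∀ l : ℕ, l.Prime → l ≤ B → Nat.card (MCQ_N (ZMod m)ˣ l B) ≤ Nat.card (ZMod m)ˣ / 2 ^ K := by
    intro l hl hlB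
    rw [Nat.le_div_iff_mul_le (Nat.pow_pos two_pos), mul_comm]
    refine le_trans (Nat.mul_le_mul_right _ ?_) (MCQ_ind (MCQ_N (ZMod m)ˣ l B) w (l ^ (K + 1)) (fun j hj =>
      MCQ_w B K m hm w (by rw [hw, ZMod.coe_unitOfCoprime]) l hl hlB j hj))
    exact (Nat.pow_le_pow_right two_pos (Nat.le_succ K)).trans (Nat.pow_le_pow_left hl.two_le _)
  set Sb : Finset (ZMod m)ˣ := Finset.univ.filter fun h => h ∈ H ∧ ¬ n ∣ orderOf (u * h) with hSb
  set Sg : Finset (ZMod m)ˣ := Finset.univ.filter fun h => h ∈ H ∧ n ∣ orderOf (u * h) with hSg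
  have hgood : Nat.card {h : (ZMod m)ˣ // h ∈ H ∧ n ∣ orderOf (u * h)} = Sg.card := by
    rw [Nat.card_eq_fintype_card, Fintype.card_subtype]
  have hsum : Nat.card H = Sg.card + Sb.card := by
    have h1 : Nat.card H = (Finset.univ.filter fun h : (ZMod m)ˣ => h ∈ H).card := by
      rw [Nat.card_eq_fintype_card, ← Fintype.card_subtype]
    rw [h1, ← Finset.card_filter_add_card_filter_not (s := Finset.univ.filter fun h : (ZMod m)ˣ => h ∈ H)
      (fun h => n ∣ orderOf (u * h)), Finset.filter_filter, Finset.filter_filter]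
  have hsub : Sb ⊆ ((Finset.range (B + 1)).filter Nat.Prime).biUnion
      (fun l => Finset.univ.filter fun h : (ZMod m)ˣ => u * h ∈ MCQ_N (ZMod m)ˣ l B) := by
    intro h hh
    obtain ⟨h1, h2⟩ := (Finset.mem_filter.1 hh).2
    rw [Finset.mem_biUnion]
    by_contra hcon
    push Not at hcon
    apply h2
    rw [Nat.dvd_iff_prime_pow_dvd_dvd]
    intro p i hp hpi
    rcases Nat.eq_zero_or_pos i with h0 | h0
    · rw [h0, pow_zero]
      exact one_dvd _
    · have h3 : p ^ i ≤ B := (Nat.le_of_dvd hn0 hpi).trans hnB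
      have h4 : p ≤ B := (Nat.le_self_pow h0.ne' p).trans h3
      have h5 : i ≤ B := (Nat.lt_pow_self hp.one_lt).le.trans h3
      refine (pow_dvd_pow p h5).trans ?_
      by_contra h6
      apply hcon p (Finset.mem_filter.2 ⟨Finset.mem_range.2 (by omega), hp⟩)
      rw [Finset.mem_filter, MCQ_mem]
      exact ⟨Finset.mem_univ _, MCH_bad p B hp _ h6⟩
  have hcard : Sb.card ≤ B * (Nat.card (ZMod m)ˣ / 2 ^ K) := by
    refine (Finset.card_le_card hsub).trans ((Finset.card_biUnion_le_card_mul _ _ (Nat.card (ZMod m)ˣ / 2 ^ K) ?_).trans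
      (Nat.mul_le_mul_right _ ?_))
    · intro l hl
      obtain ⟨hl1, hl2⟩ := Finset.mem_filter.1 hl
      refine le_trans ?_ (hNl l hl2 (by have := Finset.mem_range.1 hl1; omega))
      rw [Nat.card_eq_fintype_card, ← Fintype.card_coe]
      refine Fintype.card_le_of_injective (fun x => ⟨u * x.1, (Finset.mem_filter.1 x.2).2⟩) ?_
      intro x y hxy
      exact Subtype.ext (mul_left_cancel (congrArg Subtype.val hxy))
    · refine (Finset.card_le_card (t := Finset.Icc 1 B) ?_).trans (by simp)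
      intro l hl
      obtain ⟨hl1, hl2⟩ := Finset.mem_filter.1 hl
      rw [Finset.mem_Icc]
      exact ⟨hl2.one_lt.le, by have := Finset.mem_range.1 hl1; omega⟩
  have hA : Nat.card (ZMod m)ˣ ≤ B * Nat.card H := by
    rw [← H.index_mul_card]
    exact Nat.mul_le_mul_right _ hH
  have hfin : Sb.card * 2 ^ K ≤ B * B * Nat.card H := by
    calc Sb.card * 2 ^ K ≤ B * (Nat.card (ZMod m)ˣ / 2 ^ K) * 2 ^ K := Nat.mul_le_mul_right _ hcard
      _ = B * (Nat.card (ZMod m)ˣ / 2 ^ K * 2 ^ K) := by ring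
      _ ≤ B * Nat.card (ZMod m)ˣ := Nat.mul_le_mul_left _ (Nat.div_mul_le_self _ _)
      _ ≤ B * (B * Nat.card H) := Nat.mul_le_mul_left _ hA
      _ = B * B * Nat.card H := by ring
  have hr : (Sb.card : ℝ) ≤ ε * (Nat.card H : ℝ) := by
    have h1 : (Sb.card : ℝ) * 2 ^ K ≤ (B : ℝ) * B * (Nat.card H : ℝ) := by exact_mod_cast hfin
    have h2 : (0 : ℝ) < 2 ^ K := by positivity
    have h3 : (B : ℝ) * B * (Nat.card H : ℝ) ≤ ε * 2 ^ K * (Nat.card H : ℝ) :=
      mul_le_mul_of_nonneg_right hK2 (Nat.cast_nonneg _)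
    have h4 : (Sb.card : ℝ) * 2 ^ K ≤ (ε * (Nat.card H : ℝ)) * 2 ^ K := by linarith
    exact le_of_mul_le_mul_right h4 h2
  rw [hgood]
  have hs : (Nat.card H : ℝ) = (Sg.card : ℝ) + (Sb.card : ℝ) := by exact_mod_cast hsum
  linarith

end Pool.Agent.CD
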